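import Pool.Agent.MWP.Stmts

set_option autoImplicit false

namespace Pool.Agent.MWP.H16

open Pool.Agent.Helper14_MV Pool.Agent.Helper2_MV Pool.Agent.MWF

theorem tr {θ : FIC} {u v w : List ℕ} (h : RR θ u v) (h' : RR θ v w) : RR θ u w := θ.trans h h'

theorem pw {θ : FIC} (h : RR θ [0, 0] [0, 0, 0]) (m : ℕ) :
    RR θ (List.replicate (m + 2) 0) (List.replicate 2 0) := by
  induction m with
  | zero => exact RR.refl _
  | succ m ih =>
    have h1 : RR θ ([0] ++ List.replicate (m + 2) 0) ([0] ++ List.replicate 2 0) :=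
      (RR.refl [0]).append ih
    have h2 : [0] ++ List.replicate (m + 2) 0 = List.replicate (m + 1 + 2) 0 := rfl
    rw [h2] at h1
    exact tr h1 h.symm

theorem pw2 {θ : FIC} (h : RR θ [0, 0] [0, 0, 0]) {m : ℕ} (hm : 2 ≤ m) :
    RR θ (List.replicate m 0) [0, 0] := by
  obtain ⟨k, rfl⟩ : ∃ k, m = k + 2 := ⟨m - 2, by omega⟩
  exact pw h k

theorem one_two {θ : FIC} (h : RR θ [0, 0] [0, 0, 0]) {p q : ℕ} (hp : p ≤ 1) (hpq : p < q)
    (hr : RR θ (List.replicate p 0) (List.replicate q 0)) : RR θ [0] [0, 0] := by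
  interval_cases p
  · have h1 : RR θ ([0] ++ List.replicate 0 0) ([0] ++ List.replicate q 0) :=
      (RR.refl [0]).append hr
    have h2 : [0] ++ List.replicate q 0 = List.replicate (q + 1) 0 := rfl
    rw [h2] at h1
    exact tr h1 (pw2 h (by omega))
  · exact tr hr (pw2 h (by omega))

theorem cnt_rr {θ : FIC} {u v : List ℕ} (h : RR θ u v) (c : ℕ) :
    RR θ (List.replicate (u.count c) 0) (List.replicate (v.count c) 0) := by
  have e : ∀ l : List ℕ, l.flatMap (fun i => if i = c then [0] else []) =
      List.replicate (l.count c) 0 := by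
    intro l
    induction l with
    | nil => rfl
    | cons a l ih =>
      rw [List.flatMap_cons, ih]
      by_cases hac : a = c
      · subst hac
        rw [if_pos rfl, List.count_cons_self, List.replicate_succ]
        rfl
      · rw [if_neg hac, List.count_cons_of_ne hac]
        rfl
  have h1 := h.sub (fun i => if i = c then [0] else [])
  rwa [e, e] at h1

/-- **ISO** -/
theorem iso : IsoStmt := by
  intro β hβ u v huv c
  have h1 := cnt_rr huv c
  have h2 : min (u.count c) 2 = min (v.count c) 2 := by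
    by_contra h3
    apply hβ.ncr
    have h4 : (u.count c ≤ 1 ∧ u.count c < v.count c) ∨
        (v.count c ≤ 1 ∧ v.count c < u.count c) := by omega
    rcases h4 with ⟨h5, h6⟩ | ⟨h5, h6⟩
    · exact one_two hβ.sq h5 h6 h1
    · exact one_two hβ.sq h5 h6 h1.symm
  constructor
  · rw [← List.count_pos_iff, ← List.count_pos_iff]
    omega
  · have h3 : ∀ l : List ℕ, [c, c].Sublist l ↔ 2 ≤ l.count c := fun l =>
      List.replicate_sublist_iff (n := 2) (a := c)
    rw [h3, h3]
    omega

end Pool.Agent.MWP.H16
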